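import Mathlib
import Pool.Agent.N671.OPN.Basic

/-! The part of an integer which is prime to a finite set of primes. -/

set_option autoImplicit false

namespace Pool.Agent.U773.SF

open Finset Pool.Agent.N671.OPN

/-- the `S`-free part of `x`: the largest divisor of `|x|` not divisible by a prime of `S` -/
def free (S : Finset ℕ) (x : ℤ) : ℕ := x.natAbs / ∏ p ∈ S, p ^ padicValNat p x.natAbs

variable {S : Finset ℕ}

lemma spart_eq (hS : ∀ p ∈ S, p.Prime) (n : ℕ) :
    ∏ p ∈ S, p ^ padicValNat p n = spart S n := by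
  unfold spart
  exact prod_congr rfl fun p hp => by rw [Nat.factorization_def n (hS p hp)]

lemma free_mul_spart (hS : ∀ p ∈ S, p.Prime) (x : ℤ) :
    free S x * spart S x.natAbs = x.natAbs := by
  unfold free
  rw [spart_eq hS]
  exact Nat.div_mul_cancel (spart_dvd hS _)

lemma free_pos (hS : ∀ p ∈ S, p.Prime) {x : ℤ} (hx : x ≠ 0) : 1 ≤ free S x := by
  by_contra h
  have h0 : free S x = 0 := by omega
  have h1 := free_mul_spart hS x
  rw [h0, zero_mul] at h1
  exact hx (Int.natAbs_eq_zero.1 h1.symm)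

lemma free_mul (hS : ∀ p ∈ S, p.Prime) {x y : ℤ} (hx : x ≠ 0) (hy : y ≠ 0) :
    free S (x * y) = free S x * free S y := by
  have hx' : x.natAbs ≠ 0 := Int.natAbs_ne_zero.2 hx
  have hy' : y.natAbs ≠ 0 := Int.natAbs_ne_zero.2 hy
  have h1 := free_mul_spart hS x
  have h2 := free_mul_spart hS y
  have h3 := free_mul_spart hS (x * y)
  rw [Int.natAbs_mul, spart_mul hx' hy'] at h3
  have h4 : 0 < spart S x.natAbs * spart S y.natAbs :=
    Nat.mul_pos (spart_pos hS _) (spart_pos hS _)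
  apply Nat.eq_of_mul_eq_mul_right h4
  rw [h3]
  calc x.natAbs * y.natAbs = (free S x * spart S x.natAbs) * (free S y * spart S y.natAbs) := by
        rw [h1, h2]
    _ = _ := by ring

lemma free_prod (hS : ∀ p ∈ S, p.Prime) {ι : Type} (A : Finset ι) (f : ι → ℤ)
    (hf : ∀ i ∈ A, f i ≠ 0) : free S (∏ i ∈ A, f i) = ∏ i ∈ A, free S (f i) := by
  classical
  induction A using Finset.induction_on with
  | empty =>
    have h1 := free_mul_spart hS 1
    have h2 : spart S (1 : ℤ).natAbs = 1 := by simpa using spart_one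
    simp only [Finset.prod_empty]
    rw [h2] at h1
    simpa using h1
  | insert a A ha ih =>
    rw [prod_insert ha, prod_insert ha, free_mul hS (hf a (mem_insert_self _ _)), ih]
    · intro i hi; exact hf i (mem_insert_of_mem hi)
    · exact prod_ne_zero_iff.mpr fun i hi => hf i (mem_insert_of_mem hi)

lemma spart_self (hS : ∀ p ∈ S, p.Prime) {n : ℕ} (hn : n ≠ 0)
    (h : ∀ p : ℕ, p.Prime → p ∣ n → p ∈ S) : spart S n = n := by
  unfold spart
  conv_rhs => rw [← Nat.prod_factorization_pow_eq_self hn]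
  rw [Finsupp.prod]
  symm
  apply Finset.prod_subset
  · intro p hp
    rw [Nat.support_factorization] at hp
    exact h p (Nat.prime_of_mem_primeFactors hp) (Nat.dvd_of_mem_primeFactors hp)
  · intro p _ hp
    rw [Finsupp.notMem_support_iff] at hp
    rw [hp, pow_zero]

lemma free_unit (hS : ∀ p ∈ S, p.Prime) {u : ℤ} (hu : u ≠ 0)
    (h : ∀ p : ℕ, p.Prime → p ∣ u.natAbs → p ∈ S) : free S u = 1 := by
  have h1 := free_mul_spart hS u
  rw [spart_self hS (Int.natAbs_ne_zero.2 hu) h] at h1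
  have h2 : 0 < u.natAbs := Int.natAbs_pos.2 hu
  exact Nat.eq_of_mul_eq_mul_right h2 (by rw [h1, one_mul])

lemma free_anti {S' : Finset ℕ} (hS : ∀ p ∈ S, p.Prime) (hS' : ∀ p ∈ S', p.Prime) (h : S ⊆ S')
    (x : ℤ) : free S' x ≤ free S x := by
  unfold free
  rw [spart_eq hS, spart_eq hS']
  apply Nat.div_le_div_left _ (spart_pos hS _)
  unfold spart
  exact Finset.prod_le_prod_of_subset_of_one_le' h fun p hp _ =>
    Nat.one_le_iff_ne_zero.2 (pow_ne_zero _ (hS' p hp).ne_zero)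

lemma free_le_abs (S : Finset ℕ) (x : ℤ) : (free S x : ℝ) ≤ |(x : ℝ)| := by
  have h1 : free S x ≤ x.natAbs := Nat.div_le_self _ _
  have h2 : |(x : ℝ)| = (x.natAbs : ℝ) := by rw [Nat.cast_natAbs, Int.cast_abs]
  rw [h2]
  exact_mod_cast h1

lemma free_dvd_le (hS : ∀ p ∈ S, p.Prime) {x y : ℤ} (h : x ∣ y) (hy : y ≠ 0) :
    free S x ≤ free S y := by
  obtain ⟨z, rfl⟩ := h
  have hx : x ≠ 0 := left_ne_zero_of_mul hy
  have hz : z ≠ 0 := right_ne_zero_of_mul hy
  rw [free_mul hS hx hz]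
  exact Nat.le_mul_of_pos_right _ (free_pos hS hz)

lemma padic_abs (p : ℕ) (x : ℤ) : padicNorm p (x : ℚ) = padicNorm p (((x.natAbs : ℤ)) : ℚ) := by
  rcases Int.natAbs_eq x with h | h
  · rw [← h]
  · conv_lhs => rw [h]
    push_cast
    rw [padicNorm.neg]

lemma free_eq_norm (hS : ∀ p ∈ S, p.Prime) {x : ℤ} (hx : x ≠ 0) :
    |(x : ℝ)| * ∏ p ∈ S, (padicNorm p (x : ℚ) : ℝ) = free S x := by
  have hx' : x.natAbs ≠ 0 := Int.natAbs_ne_zero.2 hx
  have h1 := prod_padicNorm hS hx'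
  have h2 : ∏ p ∈ S, (padicNorm p (x : ℚ) : ℝ) =
      ∏ p ∈ S, (padicNorm p (((x.natAbs : ℤ)) : ℚ) : ℝ) :=
    prod_congr rfl fun p _ => by rw [padic_abs]
  have h3 : |(x : ℝ)| = (free S x : ℝ) * spart S x.natAbs := by
    rw [← Nat.cast_mul, free_mul_spart hS, Nat.cast_natAbs, Int.cast_abs]
  rw [h2, h3, mul_assoc, mul_comm (spart S x.natAbs : ℝ), h1, mul_one]

end Pool.Agent.U773.SF
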