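import Mathlib
import Pool.Agent.U773.SF.Defs

/-! Chains of affine maps with a common denominator. -/

set_option autoImplicit false

namespace Pool.Agent.U773.SF

open Finset

/-- `d x (i+1) = m i x i + b r i` for `i < n`, the `m i` prime to `p` and at most `K`, the `r i` at
most `R` in absolute value and zero or prime to `p`, like `b` -/
def PCh (p d K R : ℕ) (b : ℤ) (n : ℕ) (x : ℕ → ℤ) (m : ℕ → ℕ) (r : ℕ → ℤ) : Prop :=
  ∀ i < n, (1 ≤ m i ∧ m i ≤ K ∧ ¬ p ∣ m i) ∧ (|r i| ≤ R ∧ (r i ≠ 0 → ¬ (p : ℤ) ∣ b * r i)) ∧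
    (d : ℤ) * x (i + 1) = m i * x i + b * r i

/-- the terms with a common denominator -/
def Xs (d n : ℕ) (m : ℕ → ℕ) (x : ℕ → ℤ) (i : ℕ) : ℤ :=
  (d : ℤ) ^ i * (∏ l ∈ Ico i n, (m l : ℤ)) * x i

section

variable {p d K R : ℕ} {b : ℤ} {n : ℕ} {x : ℕ → ℤ} {m : ℕ → ℕ} {r : ℕ → ℤ}

lemma PCh.shift (h : PCh p d K R b n x m r) (s n' : ℕ) (hs : s + n' ≤ n) :
    PCh p d K R b n' (fun i => x (s + i)) (fun i => m (s + i)) (fun i => r (s + i)) := by
  intro i hi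
  exact h (s + i) (by omega)

lemma Xs_succ (h : PCh p d K R b n x m r) {i : ℕ} (hi : i < n) :
    Xs d n m x (i + 1) = Xs d n m x i + (d : ℤ) ^ i * (∏ l ∈ Ico (i + 1) n, (m l : ℤ)) * (b * r i) := by
  unfold Xs
  rw [Finset.prod_eq_prod_Ico_succ_bot hi]
  obtain ⟨-, -, h3⟩ := h i hi
  have h4 : b * r i = (d : ℤ) * x (i + 1) - m i * x i := by rw [h3]; ring
  rw [h4]
  ring

lemma prod_not_dvd (hp : p.Prime) (h : PCh p d K R b n x m r) (i : ℕ) :
    ¬ (p : ℤ) ∣ ∏ l ∈ Ico i n, (m l : ℤ) := by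
  intro hd
  have hpi : Prime (p : ℤ) := Nat.prime_iff_prime_int.1 hp
  obtain ⟨l, hl, h1⟩ := (Prime.dvd_finsetProd_iff hpi _).1 hd
  have h2 := (h l (mem_Ico.1 hl).2).1.2.2
  exact h2 (by exact_mod_cast h1)

lemma Xs_diff_all (h : PCh p d K R b n x m r) (i : ℕ) : ∀ j, i ≤ j → j ≤ n →
    ∃ u : ℤ, Xs d n m x j - Xs d n m x i = (d : ℤ) ^ i * u := by
  intro j hij
  induction j, hij using Nat.le_induction with
  | base => intro _; exact ⟨0, by ring⟩
  | succ j hij ih =>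
    intro hj
    obtain ⟨u, hu⟩ := ih (by omega)
    refine ⟨u + (d : ℤ) ^ (j - i) * (∏ l ∈ Ico (j + 1) n, (m l : ℤ)) * (b * r j), ?_⟩
    have h1 := Xs_succ h (show j < n by omega)
    have h2 : (d : ℤ) ^ j = (d : ℤ) ^ i * (d : ℤ) ^ (j - i) := by
      rw [← pow_add]; congr 1; omega
    rw [h1, h2]
    linear_combination hu

lemma Xs_diff (hp : p.Prime) (hpd : p ∣ d) (h : PCh p d K R b n x m r) {i : ℕ} (hi : r i ≠ 0) :
    ∀ j, i + 1 ≤ j → j ≤ n →
    ∃ u : ℤ, Xs d n m x j - Xs d n m x i = (d : ℤ) ^ i * u ∧ ¬ (p : ℤ) ∣ u := by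
  intro j hij
  induction j, hij using Nat.le_induction with
  | base =>
    intro hj
    have hin : i < n := by omega
    refine ⟨(∏ l ∈ Ico (i + 1) n, (m l : ℤ)) * (b * r i), ?_, ?_⟩
    · rw [Xs_succ h hin]; ring
    · intro hd
      have hpi : Prime (p : ℤ) := Nat.prime_iff_prime_int.1 hp
      rcases hpi.dvd_or_dvd hd with h1 | h1
      · exact prod_not_dvd hp h _ h1
      · exact (h i hin).2.1.2 hi h1
  | succ j hij ih =>
    intro hj
    obtain ⟨u, hu, hpu⟩ := ih (by omega)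
    refine ⟨u + (d : ℤ) ^ (j - i) * (∏ l ∈ Ico (j + 1) n, (m l : ℤ)) * (b * r j), ?_, ?_⟩
    · have h1 := Xs_succ h (show j < n by omega)
      have h2 : (d : ℤ) ^ j = (d : ℤ) ^ i * (d : ℤ) ^ (j - i) := by
        rw [← pow_add]; congr 1; omega
      rw [h1, h2]
      linear_combination hu
    · intro hd
      apply hpu
      have h3 : (p : ℤ) ∣ (d : ℤ) ^ (j - i) * (∏ l ∈ Ico (j + 1) n, (m l : ℤ)) * (b * r j) := by
        have h4 : (p : ℤ) ∣ (d : ℤ) ^ (j - i) :=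
          (Int.natCast_dvd_natCast.2 hpd).trans (dvd_pow_self _ (by omega))
        exact (h4.mul_right _).mul_right _
      exact (dvd_add_left h3).1 hd

/-- there is no linear relation with small coefficients between the terms at distant marked
indices -/
lemma no_rel (hp : p.Prime) (hpd : p ∣ d) (hd0 : d ≠ 0) (h : PCh p d K R b n x m r) {k : ℕ}
    (j : Fin (k + 1) → ℕ) (t : ℕ) (hgap : ∀ l l', l < l' → j l + t < j l')
    (hj : ∀ l, j l < n ∧ r (j l) ≠ 0) (y : Fin (k + 1) → ℤ) (hy : y ≠ 0) (hs : ∑ l, y l = 0)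
    (hyt : ∀ l, (y l).natAbs ≤ t) : ∑ l, y l * Xs d n m x (j l) ≠ 0 := by
  intro hrel
  set lz : Fin (k + 1) := Fin.last k with hlz
  have hex : (univ.filter fun l => y l ≠ 0).Nonempty := by
    obtain ⟨l, hl⟩ := Function.ne_iff.1 hy
    exact ⟨l, mem_filter.2 ⟨mem_univ _, hl⟩⟩
  set l0 := (univ.filter fun l => y l ≠ 0).min' hex with hl0
  have hl0y : y l0 ≠ 0 := (mem_filter.1 (min'_mem _ hex)).2
  have hl0m : ∀ l, l < l0 → y l = 0 := by
    intro l hl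
    by_contra hne
    have h0 : l ∈ univ.filter fun l => y l ≠ 0 := mem_filter.2 ⟨mem_univ _, hne⟩
    have := min'_le _ l h0
    exact absurd hl (not_lt.2 this)
  have hl0z : l0 < lz := by
    rcases lt_or_eq_of_le (Fin.le_last l0) with h1 | h1
    · exact h1
    · exfalso
      apply hl0y
      rw [← hs, Finset.sum_eq_single l0]
      · intro l _ hl
        exact hl0m l (lt_of_le_of_ne (by rw [h1]; exact Fin.le_last l) hl)
      · intro h2
        exact absurd (mem_univ _) h2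
  have hmono : ∀ l l' : Fin (k + 1), l < l' → j l < j l' := fun l l' hl => by
    have := hgap l l' hl
    omega
  obtain ⟨u, hu, hpu⟩ := Xs_diff hp hpd h (hj l0).2 (j lz) (hmono _ _ hl0z) (hj lz).1.le
  -- the relation
  have h1 : ∑ l, y l * (Xs d n m x (j lz) - Xs d n m x (j l)) = 0 := by
    have : ∑ l, y l * (Xs d n m x (j lz) - Xs d n m x (j l)) =
        (∑ l, y l) * Xs d n m x (j lz) - ∑ l, y l * Xs d n m x (j l) := by
      rw [Finset.sum_mul, ← Finset.sum_sub_distrib]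
      exact Finset.sum_congr rfl fun l _ => by ring
    rw [this, hs, hrel]
    ring
  have h2 : (d : ℤ) ^ (j l0 + (t + 1)) ∣ y l0 * ((d : ℤ) ^ j l0 * u) := by
    rw [← Finset.add_sum_erase _ _ (mem_univ l0), hu] at h1
    have h3 : y l0 * ((d : ℤ) ^ j l0 * u) =
        -∑ l ∈ univ.erase l0, y l * (Xs d n m x (j lz) - Xs d n m x (j l)) := by linarith
    rw [h3, dvd_neg]
    apply Finset.dvd_sum
    intro l hl
    rcases lt_or_gt_of_ne (mem_erase.1 hl).1 with h4 | h4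
    · rw [hl0m l h4, zero_mul]
      exact dvd_zero _
    · have h5 : j l ≤ j lz := by
        rcases lt_or_eq_of_le (Fin.le_last l) with h6 | h6
        · exact (hmono _ _ h6).le
        · rw [h6]
      obtain ⟨w, hw⟩ := Xs_diff_all h (j l) (j lz) h5 (hj lz).1.le
      rw [hw]
      have h7 := hgap l0 l h4
      exact ((pow_dvd_pow _ (by omega)).mul_right _).mul_left _
  have h8 : (d : ℤ) ^ (t + 1) ∣ y l0 * u := by
    have hdz : (d : ℤ) ^ j l0 ≠ 0 := pow_ne_zero _ (by exact_mod_cast hd0)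
    apply (mul_dvd_mul_iff_left hdz).1
    have h80 : (d : ℤ) ^ j l0 * (y l0 * u) = y l0 * ((d : ℤ) ^ j l0 * u) := by ring
    rw [← pow_add, h80]
    exact h2
  have h9 : (p : ℤ) ^ (t + 1) ∣ y l0 * u :=
    (pow_dvd_pow_of_dvd (Int.natCast_dvd_natCast.2 hpd) _).trans h8
  have hpi : Prime (p : ℤ) := Nat.prime_iff_prime_int.1 hp
  have hcop : IsCoprime ((p : ℤ) ^ (t + 1)) u := by
    apply IsCoprime.pow_left
    exact (Irreducible.coprime_iff_not_dvd hpi.irreducible).2 hpu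
  have h10 : (p : ℤ) ^ (t + 1) ∣ y l0 := hcop.dvd_of_dvd_mul_right h9
  have h11 := Int.le_of_dvd (Int.natAbs_pos.2 hl0y |> fun h => by exact_mod_cast h)
    ((Int.dvd_natAbs.2 h10))
  have h12 : (2 : ℤ) ^ (t + 1) ≤ (p : ℤ) ^ (t + 1) :=
    pow_le_pow_left₀ (by norm_num) (by exact_mod_cast hp.two_le) _
  have h13 : ((t + 1 : ℕ) : ℤ) < (2 : ℤ) ^ (t + 1) := by exact_mod_cast Nat.lt_two_pow_self
  have h14 := hyt l0
  push_cast at h13
  omega

/-- the terms with a common denominator are nearly equal -/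
lemma Xs_close (h : PCh p d K R b n x m r) (hd0 : d ≠ 0) {μ : ℝ} (hμ : 0 < μ)
    (hmin : ∀ i ≤ n, μ ≤ |(x i : ℝ)|) (hz : 2 * n * (|(b : ℝ)| * R / μ) ≤ 1) :
    ∀ i ≤ n, |(Xs d n m x i : ℝ) - Xs d n m x 0| ≤
      2 * i * (|(b : ℝ)| * R / μ) * |(Xs d n m x 0 : ℝ)| := by
  set z : ℝ := |(b : ℝ)| * R / μ with hzd
  have hz0 : 0 ≤ z := by positivity
  have hstep : ∀ i < n, |(Xs d n m x (i + 1) : ℝ) - Xs d n m x i| ≤ z * |(Xs d n m x i : ℝ)| := by
    intro i hi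
    rw [Xs_succ h hi]
    obtain ⟨⟨h1, -, -⟩, ⟨h2, -⟩, -⟩ := h i hi
    have e0 : (Xs d n m x i : ℝ) = (d : ℝ) ^ i * ((m i : ℝ) * ∏ l ∈ Ico (i + 1) n, (m l : ℝ)) * x i := by
      unfold Xs
      rw [Finset.prod_eq_prod_Ico_succ_bot hi]
      push_cast
      ring
    have e1 : ((Xs d n m x i + (d : ℤ) ^ i * (∏ l ∈ Ico (i + 1) n, (m l : ℤ)) * (b * r i) : ℤ) : ℝ) -
        Xs d n m x i = (d : ℝ) ^ i * (∏ l ∈ Ico (i + 1) n, (m l : ℝ)) * (b * r i) := by
      push_cast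
      ring
    rw [e1, e0]
    have hQ : 0 ≤ ∏ l ∈ Ico (i + 1) n, (m l : ℝ) := Finset.prod_nonneg fun l _ => Nat.cast_nonneg _
    have hD : 0 ≤ (d : ℝ) ^ i := by positivity
    rw [abs_mul, abs_mul, abs_mul, abs_mul, abs_mul, abs_mul, abs_of_nonneg hQ, abs_of_nonneg hD]
    have h3 : |(r i : ℝ)| ≤ R := by exact_mod_cast h2
    have h4 : |(b : ℝ)| * |(r i : ℝ)| ≤ z * μ := by
      have : z * μ = |(b : ℝ)| * R := by rw [hzd]; field_simp
      rw [this]
      gcongr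
    have h5 : (1 : ℝ) ≤ |(m i : ℝ)| := by
      rw [abs_of_nonneg (Nat.cast_nonneg _)]
      exact_mod_cast h1
    have h6 := hmin i hi.le
    have hDQ : 0 ≤ (d : ℝ) ^ i * ∏ l ∈ Ico (i + 1) n, (m l : ℝ) := mul_nonneg hD hQ
    calc (d : ℝ) ^ i * (∏ l ∈ Ico (i + 1) n, (m l : ℝ)) * (|(b : ℝ)| * |(r i : ℝ)|)
        ≤ (d : ℝ) ^ i * (∏ l ∈ Ico (i + 1) n, (m l : ℝ)) * (z * μ) := by gcongr
      _ ≤ (d : ℝ) ^ i * (∏ l ∈ Ico (i + 1) n, (m l : ℝ)) * (z * (|(m i : ℝ)| * |(x i : ℝ)|)) := by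
          gcongr
          calc μ = 1 * μ := by ring
            _ ≤ |(m i : ℝ)| * |(x i : ℝ)| := by gcongr
      _ = _ := by ring
  intro i
  induction i with
  | zero => intro _; simp
  | succ i ih =>
    intro hi
    have h1 := ih (by omega)
    have h2 := hstep i (by omega)
    set a : ℝ := |(Xs d n m x 0 : ℝ)| with ha
    have ha0 : 0 ≤ a := abs_nonneg _
    have h3 : |(Xs d n m x i : ℝ)| ≤ 2 * a := by
      have e1 : (Xs d n m x i : ℝ) = (Xs d n m x i - Xs d n m x 0) + Xs d n m x 0 := by ring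
      rw [e1]
      have e2 : 2 * (i : ℝ) * z * a ≤ 1 * a := by
        apply mul_le_mul_of_nonneg_right _ ha0
        refine le_trans ?_ hz
        have : (i : ℝ) ≤ n := by exact_mod_cast (by omega : i ≤ n)
        gcongr
      calc |(Xs d n m x i - Xs d n m x 0 : ℝ) + Xs d n m x 0|
          ≤ |(Xs d n m x i - Xs d n m x 0 : ℝ)| + a := abs_add_le _ _
        _ ≤ _ := by linarith
    have e3 : (Xs d n m x (i + 1) : ℝ) - Xs d n m x 0 =
        (Xs d n m x (i + 1) - Xs d n m x i) + (Xs d n m x i - Xs d n m x 0) := by ring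
    rw [e3]
    calc |(Xs d n m x (i + 1) - Xs d n m x i : ℝ) + (Xs d n m x i - Xs d n m x 0)|
        ≤ |(Xs d n m x (i + 1) - Xs d n m x i : ℝ)| + |(Xs d n m x i - Xs d n m x 0 : ℝ)| :=
          abs_add_le _ _
      _ ≤ z * (2 * a) + 2 * i * z * a := by
          have : z * |(Xs d n m x i : ℝ)| ≤ z * (2 * a) := by gcongr
          linarith
      _ = _ := by push_cast; ring

lemma Xs_zero_le (h : PCh p d K R b n x m r) : |(Xs d n m x 0 : ℝ)| ≤ (K : ℝ) ^ n * |(x 0 : ℝ)| := by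
  unfold Xs
  push_cast
  rw [pow_zero, one_mul, abs_mul]
  gcongr
  rw [abs_of_nonneg (Finset.prod_nonneg fun l _ => Nat.cast_nonneg _)]
  calc ∏ l ∈ Ico 0 n, (m l : ℝ) ≤ ∏ _l ∈ Ico 0 n, (K : ℝ) := by
        apply Finset.prod_le_prod
        · intro l _; exact Nat.cast_nonneg _
        · intro l hl
          exact_mod_cast (h l (mem_Ico.1 hl).2).1.2.1
    _ = _ := by rw [Finset.prod_const]; simp

lemma le_Xs_zero (h : PCh p d K R b n x m r) : |(x 0 : ℝ)| ≤ |(Xs d n m x 0 : ℝ)| := by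
  unfold Xs
  push_cast
  rw [pow_zero, one_mul, abs_mul]
  have : (1 : ℝ) ≤ |∏ l ∈ Ico 0 n, (m l : ℝ)| := by
    rw [abs_of_nonneg (Finset.prod_nonneg fun l _ => Nat.cast_nonneg _)]
    have h1 : 1 ≤ ∏ l ∈ Ico 0 n, m l :=
      Finset.one_le_prod' fun l hl => (h l (mem_Ico.1 hl).2).1.1
    exact_mod_cast h1
  have h2 := abs_nonneg (x 0 : ℝ)
  nlinarith

lemma Xs_ne (h : PCh p d K R b n x m r) (hd0 : d ≠ 0) {i : ℕ} (hx : x i ≠ 0) :
    Xs d n m x i ≠ 0 := by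
  unfold Xs
  refine mul_ne_zero (mul_ne_zero (pow_ne_zero _ (by exact_mod_cast hd0))
    (prod_ne_zero_iff.2 fun l hl => ?_)) hx
  have := (h l (mem_Ico.1 hl).2).1.1
  have h2 : m l ≠ 0 := by omega
  exact_mod_cast h2

lemma Xs_free {S : Finset ℕ} (hS : ∀ p ∈ S, p.Prime) (h : PCh p d K R b n x m r) (hd0 : d ≠ 0)
    (hdS : ∀ q : ℕ, q.Prime → q ∣ d → q ∈ S) (hK : ∀ q : ℕ, q.Prime → q ≤ K → q ∈ S)
    {i : ℕ} (hx : x i ≠ 0) : free S (Xs d n m x i) = free S (x i) := by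
  have hd1 : (d : ℤ) ^ i ≠ 0 := pow_ne_zero _ (by exact_mod_cast hd0)
  have hm1 : (∏ l ∈ Ico i n, (m l : ℤ)) ≠ 0 := prod_ne_zero_iff.2 fun l hl => by
    have := (h l (mem_Ico.1 hl).2).1.1
    have h2 : m l ≠ 0 := by omega
    exact_mod_cast h2
  unfold Xs
  rw [free_mul hS (mul_ne_zero hd1 hm1) hx, free_unit hS (mul_ne_zero hd1 hm1), one_mul]
  intro q hq hqd
  rw [Int.natAbs_mul, hq.dvd_mul] at hqd
  rcases hqd with h1 | h1
  · rw [Int.natAbs_pow, Int.natAbs_natCast] at h1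
    exact hdS q hq (hq.dvd_of_dvd_pow h1)
  · have h2 : (∏ l ∈ Ico i n, (m l : ℤ)).natAbs = ∏ l ∈ Ico i n, m l := by
      rw [← Nat.cast_prod]
      exact Int.natAbs_natCast _
    rw [h2] at h1
    obtain ⟨l, hl, h3⟩ := (hq.prime.dvd_finsetProd_iff _).1 h1
    obtain ⟨h4, h5, -⟩ := (h l (mem_Ico.1 hl).2).1
    exact hK q hq ((Nat.le_of_dvd (by omega) h3).trans h5)

end

end Pool.Agent.U773.SF
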