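import Mathlib
import Pool.Agent.U773.SF.Chn
import Pool.Agent.TH419.WI.Rel

/-! The subspace theorem for the marked terms of a chain with large gaps. -/

set_option autoImplicit false

namespace Pool.Agent.U773.SF

open Finset Filter Topology Pool.Agent.TH419.WI Pool.Agent.N671.OPN

/-- the primes of `S` -/
noncomputable def gS (S : Finset ℕ) (v : Fin S.card) : ℕ := S.orderEmbOfFin rfl v

lemma gS_pos {S : Finset ℕ} (hS : ∀ p ∈ S, p.Prime) (v : Fin S.card) : 0 < gS S v :=
  (hS _ (Finset.orderEmbOfFin_mem _ _ _)).pos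

lemma mon_spart {S : Finset ℕ} (n : ℕ) :
    mon (gS S) (fun v => n.factorization (gS S v)) = ((spart S n : ℕ) : ℤ) := by
  unfold mon spart gS
  have h2 := Finset.prod_map (Finset.univ : Finset (Fin S.card))
    (S.orderEmbOfFin rfl).toEmbedding (fun p : ℕ => (p : ℤ) ^ n.factorization p)
  rw [Finset.map_orderEmbOfFin_univ] at h2
  push_cast
  rw [h2]
  rfl

/-- the matrix of the forms `X 0, X l - X 0` -/
def M0 (k : ℕ) : Matrix (Fin (k + 1)) (Fin (k + 1)) ℤ := fun l j =>
  (if j = l then 1 else 0) - (if j = 0 then (if l = 0 then 0 else 1) else 0)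

lemma M0_det (k : ℕ) : (M0 k).det = 1 := by
  rw [Matrix.det_of_isLowerTriangular]
  · apply Finset.prod_eq_one
    intro i _
    unfold M0
    by_cases h : i = 0
    · simp [h]
    · simp [h]
  · intro i j hij
    simp only [OrderDual.toDual_lt_toDual] at hij
    unfold M0
    have h1 : j ≠ i := ne_of_gt hij
    have h2 : j ≠ 0 := by
      intro h
      rw [h] at hij
      exact absurd hij (Fin.not_lt_zero _)
    simp [h1, h2]

lemma M0_sum (k : ℕ) (X : Fin (k + 1) → ℤ) (l : Fin (k + 1)) :
    ∑ j, M0 k l j * X j = X l - (if l = 0 then 0 else X 0) := by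
  unfold M0
  simp only [sub_mul, Finset.sum_sub_distrib, ite_mul, one_mul, zero_mul]
  rw [Finset.sum_ite_eq' , Finset.sum_ite_eq']
  simp

/-- **Marked terms with large gaps.** -/
theorem separated {S : Finset ℕ} (hS : ∀ p ∈ S, p.Prime) {p d : ℕ} (K R : ℕ) (hp : p.Prime)
    (hpd : p ∣ d) (hd0 : d ≠ 0) (hdS : ∀ q : ℕ, q.Prime → q ∣ d → q ∈ S)
    (hK : ∀ q : ℕ, q.Prime → q ≤ K → q ∈ S) (k : ℕ) (hk : 1 ≤ k) (ε : ℝ) (hε : 0 < ε) :
    ∃ G : ℕ, ∀ (n : ℕ) (x : ℕ → ℤ) (m : ℕ → ℕ) (r : ℕ → ℤ) (b : ℤ) (μ : ℝ),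
      PCh p d K R b n x m r → 0 < μ → (∀ i ≤ n, μ ≤ |(x i : ℝ)|) → ∀ j : Fin (k + 1) → ℕ,
      (∀ l l', l < l' → j l + G < j l') → (∀ l, j l < n ∧ r (j l) ≠ 0) →
      (μ / (|(b : ℝ)| * R)) ^ k ≤
        (G + 1) * Real.exp (ε * (n + Real.log (1 + |(x 0 : ℝ)|))) * ∏ l, (free S (x (j l)) : ℝ) := by
  by_contra hcon
  push Not at hcon
  choose n x m r b μ hch hμ hmin j hgap hmark hbig using hcon
  -- positivity of `R` and `b`
  have hb0 : ∀ t, b t ≠ 0 := by
    intro t h0
    obtain ⟨h1, h2⟩ := hmark t 0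
    apply (hch t _ h1).2.1.2 h2
    rw [h0, zero_mul]
    exact dvd_zero _
  have hR1 : 1 ≤ R := by
    obtain ⟨h1, h2⟩ := hmark 0 0
    have h3 := (hch 0 _ h1).2.1.1
    have h4 : 0 < |r 0 (j 0 0)| := abs_pos.2 h2
    have : (0 : ℤ) < R := lt_of_lt_of_le h4 h3
    exact_mod_cast this
  have hR : (1 : ℝ) ≤ R := by exact_mod_cast hR1
  have hb1 : ∀ t, (1 : ℝ) ≤ |(b t : ℝ)| := fun t => by
    have : 1 ≤ |b t| := Int.one_le_abs (hb0 t)
    exact_mod_cast this
  have hbR : ∀ t, (1 : ℝ) ≤ |(b t : ℝ)| * R := fun t => by nlinarith [hb1 t]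
  have hx0 : ∀ t i, i ≤ n t → x t i ≠ 0 := by
    intro t i hi h0
    have h1 := hmin t i hi
    rw [h0] at h1
    simp at h1
    linarith [hμ t]
  set N : ℕ → ℝ := fun t => (n t : ℝ) + Real.log (1 + |(x t 0 : ℝ)|) with hN
  set Λ : ℕ → ℝ := fun t => Real.log (μ t / (|(b t : ℝ)| * R)) with hΛ
  have hfree : ∀ t l, (1 : ℝ) ≤ free S (x t (j t l)) := fun t l => by
    exact_mod_cast free_pos hS (hx0 t _ (hmark t l).1.le)
  have hlog0 : ∀ t, 0 ≤ Real.log (1 + |(x t 0 : ℝ)|) := fun t =>
    Real.log_nonneg (by linarith [abs_nonneg (x t 0 : ℝ)])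
  have hN0 : ∀ t, 0 ≤ N t := fun t => add_nonneg (Nat.cast_nonneg _) (hlog0 t)
  have hquo : ∀ t, 0 < μ t / (|(b t : ℝ)| * R) := fun t =>
    div_pos (hμ t) (by linarith [hbR t])
  have hH1 : ∀ t : ℕ, Real.log ((t : ℝ) + 1) + ε * N t + ∑ l, Real.log (free S (x t (j t l))) ≤
      k * Λ t := by
    intro t
    have h1 := (Real.log_le_log (by
      have : 0 < ∏ l, (free S (x t (j t l)) : ℝ) :=
        Finset.prod_pos fun l _ => by linarith [hfree t l]
      positivity) (hbig t).le)
    rw [Real.log_pow, Real.log_mul (by positivity) (by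
        exact (Finset.prod_pos fun l _ => by linarith [hfree t l]).ne'),
      Real.log_mul (by positivity) (Real.exp_pos _).ne', Real.log_exp, Real.log_prod] at h1
    · exact h1
    · intro l _
      linarith [hfree t l]
  have hsumlog : ∀ t, 0 ≤ ∑ l, Real.log (free S (x t (j t l))) := fun t =>
    Finset.sum_nonneg fun l _ => Real.log_nonneg (hfree t l)
  have hΛN : ∀ t, Λ t ≤ N t := by
    intro t
    have h1 : μ t / (|(b t : ℝ)| * R) ≤ 1 + |(x t 0 : ℝ)| := by
      have h2 := hmin t 0 (Nat.zero_le _)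
      calc μ t / (|(b t : ℝ)| * R) ≤ μ t / 1 := by
            have := hμ t
            have := hbR t
            gcongr
        _ ≤ _ := by rw [div_one]; linarith
    have h3 := Real.log_le_log (hquo t) h1
    have : (0 : ℝ) ≤ n t := Nat.cast_nonneg _
    simp only [hN, hΛ]
    linarith
  have hk0 : (0 : ℝ) < k := by exact_mod_cast hk
  have hNt : Tendsto N atTop atTop := by
    have h1 : ∀ t : ℕ, Real.log ((t : ℝ) + 1) / k ≤ N t := by
      intro t
      rw [div_le_iff₀ hk0]
      have h2 := hH1 t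
      have h3 := hΛN t
      have h4 := hsumlog t
      have h5 : 0 ≤ ε * N t := mul_nonneg hε.le (hN0 t)
      nlinarith
    refine tendsto_atTop_mono h1 ?_
    apply Tendsto.atTop_div_const hk0
    exact Real.tendsto_log_atTop.comp (tendsto_atTop_add_const_right _ _ tendsto_natCast_atTop_atTop)
  -- the quantity `Z`
  have hZ : ∀ t, |(b t : ℝ)| * R / μ t = Real.exp (-Λ t) := by
    intro t
    simp only [hΛ]
    rw [Real.exp_neg, Real.exp_log (hquo t), inv_div]
  have hΛlow : ∀ t, ε / k * N t ≤ Λ t := by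
    intro t
    have h2 := hH1 t
    have h4 := hsumlog t
    have h5 : 0 ≤ Real.log ((t : ℝ) + 1) := Real.log_nonneg (by
      have : (0 : ℝ) ≤ t := Nat.cast_nonneg _
      linarith)
    rw [div_mul_eq_mul_div, div_le_iff₀ hk0]
    linarith
  have hsmall : ∀ η : ℝ, 0 < η → ∀ᶠ t in atTop, 2 * n t * (|(b t : ℝ)| * R / μ t) ≤ η := by
    intro η hη
    have h1 : Tendsto (fun y : ℝ => 2 * (y * Real.exp (-(ε / k * y)))) atTop (𝓝 (2 * 0)) := by
      apply Tendsto.const_mul
      have h2 := Real.tendsto_pow_mul_exp_neg_atTop_nhds_zero 1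
      have h3 : Tendsto (fun y : ℝ => ε / k * y) atTop atTop :=
        Tendsto.const_mul_atTop (by positivity) tendsto_id
      have h4 := (h2.comp h3).const_mul ((ε / k)⁻¹)
      rw [mul_zero] at h4
      refine h4.congr fun y => ?_
      simp only [Function.comp_apply, pow_one]
      have : ε / k ≠ 0 := by positivity
      field_simp
    rw [mul_zero] at h1
    have h5 := (h1.comp hNt).eventually (gt_mem_nhds hη)
    filter_upwards [h5] with t ht
    refine le_trans ?_ ht.le
    simp only [Function.comp_apply]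
    rw [hZ t]
    have h6 : (n t : ℝ) ≤ N t := by
      have := hlog0 t
      simp only [hN]
      linarith
    have h7 : Real.exp (-Λ t) ≤ Real.exp (-(ε / k * N t)) := Real.exp_le_exp.2 (by
      linarith [hΛlow t])
    calc 2 * (n t : ℝ) * Real.exp (-Λ t) = 2 * (n t * Real.exp (-Λ t)) := by ring
      _ ≤ 2 * (N t * Real.exp (-(ε / k * N t))) := by
        have := Real.exp_pos (-Λ t)
        have := hN0 t
        gcongr
  -- the points
  set X : ℕ → Fin (k + 1) → ℤ := fun t l => Xs d (n t) (m t) (x t) (j t l) with hX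
  set X0 : ℕ → ℝ := fun t => |(Xs d (n t) (m t) (x t) 0 : ℝ)| with hX0
  have hX0low : ∀ t, 1 ≤ X0 t := by
    intro t
    refine le_trans ?_ (le_Xs_zero (hch t))
    have : 1 ≤ |x t 0| := Int.one_le_abs (hx0 t 0 (Nat.zero_le _))
    exact_mod_cast this
  have hX0x : ∀ t, |(x t 0 : ℝ)| ≤ X0 t := fun t => le_Xs_zero (hch t)
  set LK : ℝ := Real.log (K + 1) with hLK
  have hLK0 : 0 ≤ LK := Real.log_nonneg (by
    have : (0 : ℝ) ≤ K := Nat.cast_nonneg _
    linarith)
  have hX0up : ∀ t, Real.log (X0 t) ≤ (1 + LK) * N t := by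
    intro t
    have h1 : X0 t ≤ ((K : ℝ) + 1) ^ n t * (1 + |(x t 0 : ℝ)|) := by
      refine (Xs_zero_le (hch t)).trans ?_
      have := abs_nonneg (x t 0 : ℝ)
      gcongr
      · linarith
      · linarith
    have h2 := Real.log_le_log (by linarith [hX0low t]) h1
    rw [Real.log_mul (by positivity) (by positivity), Real.log_pow] at h2
    have h3 : (n t : ℝ) ≤ N t := by
      have := hlog0 t
      simp only [hN]
      linarith
    have h4 : Real.log (1 + |(x t 0 : ℝ)|) ≤ N t := by
      have : (0 : ℝ) ≤ n t := Nat.cast_nonneg _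
      simp only [hN]
      linarith
    calc Real.log (X0 t) ≤ n t * LK + Real.log (1 + |(x t 0 : ℝ)|) := h2
      _ ≤ N t * LK + N t := by gcongr
      _ = _ := by ring
  have hXne : ∀ t l, X t l ≠ 0 := fun t l => Xs_ne (hch t) hd0 (hx0 t _ (hmark t l).1.le)
  have hclose : ∀ᶠ t in atTop, ∀ i ≤ n t, |(Xs d (n t) (m t) (x t) i : ℝ) -
      Xs d (n t) (m t) (x t) 0| ≤ 2 * n t * (|(b t : ℝ)| * R / μ t) * X0 t := by
    filter_upwards [hsmall 1 one_pos] with t ht i hi
    refine (Xs_close (hch t) hd0 (hμ t) (hmin t) ht i hi).trans ?_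
    have h1 : (i : ℝ) ≤ n t := by exact_mod_cast hi
    have h2 : 0 ≤ |(b t : ℝ)| * R / μ t := by
      rw [hZ t]; exact (Real.exp_pos _).le
    have h3 : 0 ≤ X0 t := by linarith [hX0low t]
    gcongr
  have hXup : ∀ᶠ t in atTop, ∀ l, |(X t l : ℝ)| ≤ 2 * X0 t ∧ X0 t ≤ 2 * |(X t l : ℝ)| := by
    filter_upwards [hsmall (1 / 2) (by norm_num), hclose] with t ht hc l
    have h1 := hc (j t l) (hmark t l).1.le
    have h2 : 2 * n t * (|(b t : ℝ)| * R / μ t) * X0 t ≤ 1 / 2 * X0 t := by
      have := hX0low t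
      gcongr
    have h3 : |(X t l : ℝ) - Xs d (n t) (m t) (x t) 0| ≤ 1 / 2 * X0 t := h1.trans h2
    constructor
    · have h4 := abs_sub_abs_le_abs_sub (X t l : ℝ) (Xs d (n t) (m t) (x t) 0)
      have := hX0low t
      simp only [hX0] at *
      linarith
    · have h4 := abs_sub_abs_le_abs_sub (Xs d (n t) (m t) (x t) 0 : ℝ) (X t l)
      rw [abs_sub_comm] at h4
      simp only [hX0] at *
      linarith
  set A : ℕ → Fin (k + 1) → ℝ := fun t l =>
    if l = 0 then 2 * X0 t else 4 * N t * Real.exp (-Λ t) * X0 t with hA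
  -- the numerical facts
  have hNlarge : ∀ᶠ t in atTop, 1 ≤ N t := hNt.eventually_ge_atTop 1
  have hnum : ∀ᶠ t in atTop, (k + 2) * Real.log 2 + k * (Real.log 4 + Real.log (N t)) + ε / 2 * N t
      ≤ ε * N t := by
    have h1 : Tendsto (fun y : ℝ => (Real.log y) / y) atTop (𝓝 0) :=
      Real.isLittleO_log_id_atTop.tendsto_div_nhds_zero
    have h2 := (h1.comp hNt).eventually (gt_mem_nhds (show (0 : ℝ) < ε / (4 * k) by positivity))
    have h3 := hNt.eventually_ge_atTop (4 / ε * ((k + 2) * Real.log 2 + k * Real.log 4))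
    filter_upwards [h2, h3, hNlarge] with t e1 e2 e3
    simp only [Function.comp_apply] at e1
    rw [div_lt_iff₀ (by linarith)] at e1
    have e4 : (k : ℝ) * Real.log (N t) ≤ ε / 4 * N t := by
      calc (k : ℝ) * Real.log (N t) ≤ k * (ε / (4 * k) * N t) := by gcongr
        _ = ε / 4 * N t := by field_simp
    have e5 : (k + 2) * Real.log 2 + k * Real.log 4 ≤ ε / 4 * N t := by
      calc (k + 2) * Real.log 2 + k * Real.log 4
          = ε / 4 * (4 / ε * ((k + 2) * Real.log 2 + k * Real.log 4)) := by field_simp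
        _ ≤ _ := by gcongr
    nlinarith
  set c : ℝ := (k + 1) * (10 + LK) with hc
  have hkk : (1 : ℝ) ≤ k + 1 := by linarith
  have hc1 : 10 + LK ≤ c := by rw [hc]; nlinarith
  have hl2 : Real.log 2 ≤ 1 := by
    have := Real.log_two_lt_d9
    linarith
  have hl20 : 0 ≤ Real.log 2 := Real.log_nonneg (by norm_num)
  have hl4 : Real.log 4 = 2 * Real.log 2 := by
    rw [show (4 : ℝ) = 2 ^ 2 by norm_num, Real.log_pow]; norm_num
  have hspX : ∀ t l, Real.log ((mon (gS S) (fun v => (X t l).natAbs.factorization (gS S v)) : ℤ) : ℝ) =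
      Real.log |(X t l : ℝ)| - Real.log (free S (x t (j t l))) := by
    intro t l
    rw [mon_spart]
    have h1 := free_mul_spart hS (X t l)
    have h2 : |(X t l : ℝ)| = (free S (X t l) : ℝ) * spart S (X t l).natAbs := by
      rw [← Nat.cast_mul, h1, Nat.cast_natAbs, Int.cast_abs]
    have h3 : free S (X t l) = free S (x t (j t l)) :=
      Xs_free hS (hch t) hd0 hdS hK (hx0 t _ (hmark t l).1.le)
    have h4 : (0 : ℝ) < spart S (X t l).natAbs := by exact_mod_cast spart_pos hS _
    rw [h2, h3, Real.log_mul (by linarith [hfree t l]) h4.ne']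
    push_cast
    ring
  have key := subDiag ℤ (Int.castRingHom ℂ) (n := k + 1) (k := S.card) (by omega) (gS S) (gS_pos hS)
    (M0 k) (by rw [M0_det]; exact one_ne_zero) (by intro i j; simp) c (ε / 2)
    (by linarith) (by positivity) N hNt
    (fun t l v => (X t l).natAbs.factorization (gS S v)) A
    (fun t l => X t l / ((spart S (X t l).natAbs : ℕ) : ℤ))
    (by
      filter_upwards [hXup, hNlarge] with t ht hN1
      calc ∑ l, Real.log ((mon (gS S) (fun v => (X t l).natAbs.factorization (gS S v)) : ℤ) : ℝ)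
          ≤ ∑ _l : Fin (k + 1), (10 + LK) * N t := by
            refine Finset.sum_le_sum fun l _ => ?_
            rw [hspX]
            have h1 := (ht l).1
            have h2 : 0 < |(X t l : ℝ)| := abs_pos.2 (by exact_mod_cast hXne t l)
            have h3 := Real.log_le_log h2 h1
            rw [Real.log_mul (by norm_num) (by linarith [hX0low t])] at h3
            have h4 := hX0up t
            have h5 := Real.log_nonneg (hfree t l)
            nlinarith
        _ = c * N t := by
            rw [Finset.sum_const, Finset.card_univ, Fintype.card_fin, nsmul_eq_mul, hc]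
            push_cast
            ring)
    (by
      filter_upwards [hNlarge] with t hN1 l
      have := hX0low t
      simp only [hA]
      split_ifs
      · linarith
      · positivity)
    (by
      filter_upwards [hNlarge] with t hN1 l
      have h1 := hX0low t
      have h2 := hX0up t
      have h3 : 0 ≤ Real.log (X0 t) := Real.log_nonneg h1
      have h4 := hΛN t
      have h5 : 0 ≤ Λ t := le_trans (by have := hN0 t; positivity) (hΛlow t)
      have h6 : Real.log (N t) ≤ N t := (Real.log_le_sub_one_of_pos (by linarith)).trans (by linarith)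
      have h7 : 0 ≤ Real.log (N t) := Real.log_nonneg hN1
      have hcN : (10 + LK) * N t ≤ c * N t := by gcongr
      simp only [hA]
      split_ifs
      · rw [Real.log_mul (by norm_num) (by linarith), abs_of_nonneg (by linarith)]
        nlinarith
      · rw [Real.log_mul (by positivity) (by linarith), Real.log_mul (by positivity)
          (Real.exp_pos _).ne', Real.log_mul (by norm_num) (by linarith), Real.log_exp]
        rw [abs_le]
        constructor <;> nlinarith)
    (by
      filter_upwards [hXup, hNlarge, hnum] with t ht hN1 hnumt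
      have h1 := hX0low t
      have hAsum : ∑ l, Real.log (A t l) = Real.log 2 + Real.log (X0 t) +
          k * (Real.log 4 + Real.log (N t) - Λ t + Real.log (X0 t)) := by
        rw [Fin.sum_univ_succ]
        simp only [hA, if_true, Fin.succ_ne_zero, if_false]
        rw [Finset.sum_const, Finset.card_univ, Fintype.card_fin, nsmul_eq_mul,
          Real.log_mul (by norm_num) (by linarith), Real.log_mul (by positivity) (by linarith),
          Real.log_mul (by positivity) (Real.exp_pos _).ne', Real.log_mul (by norm_num) (by linarith),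
          Real.log_exp]
        ring
      have hBsum : (k + 1) * (Real.log (X0 t) - Real.log 2) - ∑ l, Real.log (free S (x t (j t l))) ≤
          ∑ l, Real.log ((mon (gS S) (fun v => (X t l).natAbs.factorization (gS S v)) : ℤ) : ℝ) := by
        have h2 : (k + 1) * (Real.log (X0 t) - Real.log 2) -
            ∑ l, Real.log (free S (x t (j t l))) =
            ∑ l : Fin (k + 1), ((Real.log (X0 t) - Real.log 2) - Real.log (free S (x t (j t l)))) := by
          rw [Finset.sum_sub_distrib, Finset.sum_const, Finset.card_univ, Fintype.card_fin,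
            nsmul_eq_mul]
          push_cast
          ring
        rw [h2]
        refine Finset.sum_le_sum fun l _ => ?_
        rw [hspX]
        have h3 := Real.log_le_log (by linarith) (ht l).2
        have h4 : |(X t l : ℝ)| ≠ 0 := (abs_pos.2 (by exact_mod_cast hXne t l)).ne'
        rw [Real.log_mul (by norm_num) h4] at h3
        linarith
      have hH := hH1 t
      have h5 : 0 ≤ Real.log ((t : ℝ) + 1) := Real.log_nonneg (by
        have : (0 : ℝ) ≤ t := Nat.cast_nonneg _
        linarith)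
      refine le_trans ?_ hBsum
      rw [hAsum]
      nlinarith)
    (by
      filter_upwards with t h0
      have h1 := congrFun h0 0
      simp only [Pi.zero_apply] at h1
      have h2 : ((spart S (X t 0).natAbs : ℕ) : ℤ) ∣ X t 0 :=
        Int.natCast_dvd.2 (spart_dvd hS _)
      have h3 := Int.mul_ediv_cancel' h2
      rw [h1, mul_zero] at h3
      exact hXne t 0 h3.symm)
    (by
      filter_upwards [hXup, hclose, hNlarge] with t ht hc' hN1 l
      have h1 : ∀ j', mon (gS S) (fun v => (X t j').natAbs.factorization (gS S v)) *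
          (X t j' / ((spart S (X t j').natAbs : ℕ) : ℤ)) = X t j' := fun j' => by
        rw [mon_spart]
        exact Int.mul_ediv_cancel' (Int.natCast_dvd.2 (spart_dvd hS _))
      simp only [h1, Int.cast_id]
      rw [M0_sum]
      have h2 : ‖(Int.castRingHom ℂ) (X t l - if l = 0 then 0 else X t 0)‖ =
          |((X t l - if l = 0 then 0 else X t 0 : ℤ) : ℝ)| := by
        rw [eq_intCast, Complex.norm_intCast]
      rw [h2]
      simp only [hA]
      split_ifs with hl
      · rw [sub_zero]
        exact (ht l).1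
      · have h3 := hc' (j t l) (hmark t l).1.le
        have h4 := hc' (j t 0) (hmark t 0).1.le
        have h5 : ((X t l - X t 0 : ℤ) : ℝ) = ((X t l : ℝ) - Xs d (n t) (m t) (x t) 0) -
            ((X t 0 : ℝ) - Xs d (n t) (m t) (x t) 0) := by push_cast; ring
        rw [h5]
        have h6 : (n t : ℝ) ≤ N t := by
          have := hlog0 t
          simp only [hN]
          linarith
        have h7 := hX0low t
        calc |((X t l : ℝ) - Xs d (n t) (m t) (x t) 0) - ((X t 0 : ℝ) - Xs d (n t) (m t) (x t) 0)|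
            ≤ |(X t l : ℝ) - Xs d (n t) (m t) (x t) 0| +
              |(X t 0 : ℝ) - Xs d (n t) (m t) (x t) 0| := abs_sub _ _
          _ ≤ 2 * n t * (|(b t : ℝ)| * R / μ t) * X0 t + 2 * n t * (|(b t : ℝ)| * R / μ t) * X0 t :=
              add_le_add h3 h4
          _ = 4 * n t * Real.exp (-Λ t) * X0 t := by rw [hZ t]; ring
          _ ≤ 4 * N t * Real.exp (-Λ t) * X0 t := by
              have := Real.exp_pos (-Λ t)
              gcongr)
  -- the relation
  obtain ⟨y, hy, hfr⟩ := key
  have hfr2 : ∃ᶠ t in atTop, ∑ l, y l * X t l = 0 := by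
    refine hfr.mono fun t ht => ?_
    rw [← ht]
    refine Finset.sum_congr rfl fun l _ => ?_
    rw [mon_spart, Int.mul_ediv_cancel' (Int.natCast_dvd.2 (spart_dvd hS _))]
  set Y1 : ℝ := 1 + ∑ l, |(y l : ℝ)| with hY1
  have hY10 : 0 ≤ ∑ l, |(y l : ℝ)| := Finset.sum_nonneg fun l _ => abs_nonneg _
  have hev := (hsmall (1 / (2 * Y1)) (by positivity)).and (hclose.and
    (eventually_ge_atTop (∑ l, (y l).natAbs)))
  obtain ⟨t, hrel, h1, h2, h3⟩ := (hfr2.and_eventually hev).exists
  -- the sum of the coefficients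
  have hs0 : ∑ l, y l = 0 := by
    by_contra hne
    have h4 : (1 : ℝ) ≤ |((∑ l, y l : ℤ) : ℝ)| := by
      have : 1 ≤ |∑ l, y l| := Int.one_le_abs hne
      exact_mod_cast this
    have h5 : ((∑ l, y l : ℤ) : ℝ) * Xs d (n t) (m t) (x t) 0 =
        -∑ l, (y l : ℝ) * ((X t l : ℝ) - Xs d (n t) (m t) (x t) 0) := by
      have h6 : ((∑ l, y l * X t l : ℤ) : ℝ) = 0 := by rw [hrel]; simp
      push_cast at h6 ⊢
      rw [Finset.sum_mul]
      have h7 : ∑ l, (y l : ℝ) * ((X t l : ℝ) - Xs d (n t) (m t) (x t) 0) =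
          ∑ l, (y l : ℝ) * X t l - ∑ l, (y l : ℝ) * Xs d (n t) (m t) (x t) 0 := by
        rw [← Finset.sum_sub_distrib]
        exact Finset.sum_congr rfl fun l _ => by ring
      rw [h7, h6]
      ring
    have h8 : |((∑ l, y l : ℤ) : ℝ)| * X0 t ≤ 1 / 2 * X0 t := by
      have h9 : |((∑ l, y l : ℤ) : ℝ)| * X0 t =
          |∑ l, (y l : ℝ) * ((X t l : ℝ) - Xs d (n t) (m t) (x t) 0)| := by
        rw [← abs_neg (∑ l, (y l : ℝ) * ((X t l : ℝ) - Xs d (n t) (m t) (x t) 0)), ← h5, abs_mul]
      rw [h9]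
      calc |∑ l, (y l : ℝ) * ((X t l : ℝ) - Xs d (n t) (m t) (x t) 0)|
          ≤ ∑ l, |(y l : ℝ) * ((X t l : ℝ) - Xs d (n t) (m t) (x t) 0)| :=
            Finset.abs_sum_le_sum_abs _ _
        _ ≤ ∑ l, |(y l : ℝ)| * (1 / (2 * Y1) * X0 t) := by
            refine Finset.sum_le_sum fun l _ => ?_
            rw [abs_mul]
            have h10 := h2 (j t l) (hmark t l).1.le
            have h11 : 2 * n t * (|(b t : ℝ)| * R / μ t) * X0 t ≤ 1 / (2 * Y1) * X0 t := by
              have := hX0low t
              gcongr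
            have := h10.trans h11
            gcongr
        _ = (∑ l, |(y l : ℝ)|) * (1 / (2 * Y1) * X0 t) := by rw [Finset.sum_mul]
        _ ≤ Y1 * (1 / (2 * Y1) * X0 t) := by
            have := hX0low t
            have h12 : ∑ l, |(y l : ℝ)| ≤ Y1 := by rw [hY1]; linarith
            have h13 : 0 ≤ 1 / (2 * Y1) * X0 t := by positivity
            gcongr
        _ = 1 / 2 * X0 t := by
            have : Y1 ≠ 0 := by positivity
            field_simp
    have h9 := hX0low t
    nlinarith
  exact no_rel hp hpd hd0 (hch t) (j t) t (hgap t) (hmark t) y hy hs0 (fun l =>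
    (Finset.single_le_sum (f := fun l => (y l).natAbs) (fun _ _ => Nat.zero_le _)
      (Finset.mem_univ l)).trans h3) hrel

end Pool.Agent.U773.SF
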