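import Mathlib
import Pool.Agent.U773.SF.Defs

/-! The `S`-free parts of the values of several linear forms in two variables. -/

set_option autoImplicit false

namespace Pool.Agent.U773.SF

open Finset Polynomial Pool.Agent.Y670.RD

variable {S : Finset ℕ}

/-- the polynomial -/
noncomputable def gpol {m : ℕ} (M β : Fin m → ℤ) : ℤ[X] := X * ∏ j, (C (β j) * X + C (M j))

lemma lin_ne (b a : ℤ) (hb : b ≠ 0) : (C b * X + C a : ℤ[X]) ≠ 0 := by
  intro h
  have h1 : (C b * X + C a : ℤ[X]).natDegree = 1 := natDegree_linear hb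
  rw [h] at h1
  simp at h1

lemma gpol_deg {m : ℕ} (M β : Fin m → ℤ) (hβ : ∀ j, β j ≠ 0) : (gpol M β).natDegree = m + 1 := by
  unfold gpol
  have h1 : ∀ j, (C (β j) * X + C (M j) : ℤ[X]) ≠ 0 := fun j => lin_ne _ _ (hβ j)
  rw [natDegree_mul X_ne_zero (prod_ne_zero_iff.2 fun j _ => h1 j), natDegree_X,
    natDegree_prod _ _ fun j _ => h1 j]
  simp only [natDegree_linear (hβ _)]
  simp [add_comm]

lemma gpol_lead {m : ℕ} (M β : Fin m → ℤ) (hβ : ∀ j, β j ≠ 0) :
    (gpol M β).leadingCoeff = ∏ j, β j := by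
  unfold gpol
  rw [leadingCoeff_mul, leadingCoeff_X, one_mul, leadingCoeff_prod]
  exact prod_congr rfl fun j _ => leadingCoeff_linear (hβ j)

lemma gpol_fv {m : ℕ} (M β : Fin m → ℤ) (hβ : ∀ j, β j ≠ 0) (s t : ℤ) :
    fv (gpol M β).natDegree (gpol M β) s t = s * ∏ j, (M j * t + β j * s) := by
  rcases eq_or_ne t 0 with rfl | ht
  · rw [fv_zero, coeff_natDegree, gpol_lead M β hβ, gpol_deg M β hβ]
    simp only [mul_zero, zero_add]
    rw [prod_mul_distrib, prod_const, card_univ, Fintype.card_fin, pow_succ]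
    ring
  · have htq : (t : ℚ) ≠ 0 := by exact_mod_cast ht
    have h1 := fv_eq (K := ℚ) (N := (gpol M β).natDegree) (f := gpol M β) le_rfl (s := s) htq
    have h2 : ((s * ∏ j, (M j * t + β j * s) : ℤ) : ℚ) =
        (t : ℚ) ^ (gpol M β).natDegree * aeval ((s : ℚ) / t) (gpol M β) := by
      rw [gpol_deg M β hβ]
      unfold gpol
      rw [map_mul, aeval_X, map_prod, pow_succ]
      have h3 : ∏ j, aeval ((s : ℚ) / t) (C (β j) * X + C (M j) : ℤ[X]) * (t : ℚ) =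
          ∏ j, ((M j : ℚ) * t + β j * s) := by
        refine prod_congr rfl fun j _ => ?_
        have e1 : aeval ((s : ℚ) / t) (C (β j) * X + C (M j) : ℤ[X]) =
            (β j : ℚ) * ((s : ℚ) / t) + M j := by
          rw [map_add, map_mul, aeval_X, aeval_C, aeval_C]
          simp
        rw [e1]
        field_simp
        ring
      rw [prod_mul_distrib, prod_const, card_univ, Fintype.card_fin] at h3
      push_cast
      rw [← h3]
      field_simp
    have h4 := h1.trans h2.symm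
    exact_mod_cast h4

lemma gpol_sqf {m : ℕ} (M β : Fin m → ℤ) (hβ : ∀ j, β j ≠ 0) (hM : ∀ j, M j ≠ 0)
    (hne : ∀ j k, j ≠ k → M j * β k ≠ M k * β j) :
    Squarefree ((gpol M β).map (Int.castRingHom ℚ)) := by
  have hβq : ∀ j, (β j : ℚ) ≠ 0 := fun j => by exact_mod_cast hβ j
  let f : Option (Fin m) → ℚ := fun o => o.elim 0 (fun j => -(M j : ℚ) / β j)
  have hf : Function.Injective f := by
    intro a b hab
    cases a with
    | none =>
      cases b with
      | none => rfl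
      | some j =>
        exfalso
        simp only [f, Option.elim] at hab
        have h1 := hβq j
        have h2 : (M j : ℚ) ≠ 0 := by exact_mod_cast hM j
        have h3 : -(M j : ℚ) / β j ≠ 0 := div_ne_zero (neg_ne_zero.2 h2) h1
        exact h3 hab.symm
    | some j =>
      cases b with
      | none =>
        exfalso
        simp only [f, Option.elim] at hab
        have h1 := hβq j
        have h2 : (M j : ℚ) ≠ 0 := by exact_mod_cast hM j
        have h3 : -(M j : ℚ) / β j ≠ 0 := div_ne_zero (neg_ne_zero.2 h2) h1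
        exact h3 hab
      | some k =>
        congr 1
        by_contra hjk
        simp only [f, Option.elim] at hab
        have h1 := hβq j
        have h2 := hβq k
        rw [div_eq_div_iff h1 h2] at hab
        apply hne j k hjk
        have h3 : (M j : ℚ) * β k = M k * β j := by linarith
        exact_mod_cast h3
  have h1 : (∏ o, (X - C (f o))).Separable := separable_prod_X_sub_C_iff.2 hf
  have ha : (∏ j, (β j : ℚ)) ≠ 0 := prod_ne_zero_iff.2 fun j _ => hβq j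
  have h2 : (gpol M β).map (Int.castRingHom ℚ) =
      C (∏ j, (β j : ℚ)) * ∏ o, (X - C (f o)) := by
    unfold gpol
    rw [Polynomial.map_mul, map_X, Polynomial.map_prod, Fintype.prod_option, map_prod]
    simp only [f, Option.elim]
    rw [C_0, sub_zero]
    have h3 : ∀ j, (C (β j) * X + C (M j) : ℤ[X]).map (Int.castRingHom ℚ) =
        C (β j : ℚ) * (X - C (-(M j : ℚ) / β j)) := by
      intro j
      rw [Polynomial.map_add, Polynomial.map_mul, map_X, map_C, map_C]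
      simp only [eq_intCast]
      rw [mul_sub, ← C_mul]
      have : (β j : ℚ) * (-(M j : ℚ) / β j) = -(M j : ℚ) := by
        have := hβq j
        field_simp
      rw [this, C_neg]
      ring
    simp only [h3]
    rw [prod_mul_distrib]
    ring
  refine (h1.squarefree).squarefree_of_dvd ⟨C (∏ j, (β j : ℚ))⁻¹, ?_⟩
  rw [h2]
  have h4 : (C (∏ j, (β j : ℚ)) * C (∏ j, (β j : ℚ))⁻¹ : ℚ[X]) = 1 := by
    rw [← C_mul, mul_inv_cancel₀ ha, C_1]
  calc ∏ o, (X - C (f o)) = (C (∏ j, (β j : ℚ)) * C (∏ j, (β j : ℚ))⁻¹) * ∏ o, (X - C (f o)) := by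
        rw [h4, one_mul]
    _ = _ := by ring

/-- one system of forms -/
theorem cluster1 (hS : ∀ p ∈ S, p.Prime) {m : ℕ} (hm : 2 ≤ m) (ε : ℝ) (hε : 0 < ε) (hε1 : ε ≤ 1)
    (M B : Fin m → ℤ) (hM : ∀ j, 1 ≤ M j) (hne : ∀ j k, j ≠ k → M j * B k ≠ M k * B j) :
    ∃ c : ℝ, 0 < c ∧ ∀ s t : ℤ, IsCoprime s t → s ≠ 0 → (∀ j, M j * t + B j * s ≠ 0) →
      c * (max |(s : ℝ)| |(t : ℝ)|) ^ ((m : ℝ) - 1 - ε) ≤
        |(s : ℝ)| * ∏ j, (free S (M j * t + B j * s) : ℝ) := by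
  set c0 : ℤ := 1 + ∑ j, |B j| with hc0
  have hc01 : 1 ≤ c0 := by
    have : 0 ≤ ∑ j, |B j| := sum_nonneg fun j _ => abs_nonneg _
    omega
  set β : Fin m → ℤ := fun j => B j - c0 * M j with hβd
  have hβneg : ∀ j, β j < 0 := by
    intro j
    have h1 : |B j| ≤ ∑ j, |B j| := single_le_sum (f := fun j => |B j|) (fun j _ => abs_nonneg _)
      (mem_univ j)
    have h2 : B j ≤ |B j| := le_abs_self _
    have h3 : c0 ≤ c0 * M j := by nlinarith [hM j]
    simp only [hβd]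
    omega
  have hβ : ∀ j, β j ≠ 0 := fun j => (hβneg j).ne
  have hM0 : ∀ j, M j ≠ 0 := fun j => by have := hM j; omega
  obtain ⟨c, hc, h⟩ := rid_form' (gpol M β) (gpol_sqf M β hβ hM0 (by
      intro j k hjk h1
      apply hne j k hjk
      simp only [hβd] at h1
      linarith)) (by rw [gpol_deg M β hβ]; omega) S hS ε hε
  have hc0R : (1 : ℝ) ≤ c0 := by exact_mod_cast hc01
  have hm2 : (2 : ℝ) ≤ m := by exact_mod_cast hm
  have he0 : 0 ≤ (m : ℝ) - 1 - ε := by linarith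
  refine ⟨c / (1 + c0) ^ ((m : ℝ) - 1 - ε), by positivity, fun s t hst hs hL => ?_⟩
  set t' : ℤ := t + c0 * s with ht'
  have hcop : IsCoprime s t' := by
    rw [ht']
    obtain ⟨u, v, huv⟩ := hst
    exact ⟨u - c0 * v, v, by linarith⟩
  have hLe : ∀ j, M j * t' + β j * s = M j * t + B j * s := by
    intro j
    simp only [ht', hβd]
    ring
  have hfv := gpol_fv M β hβ s t'
  simp only [hLe] at hfv
  have hprod : s * ∏ j, (M j * t + B j * s) ≠ 0 :=
    mul_ne_zero hs (prod_ne_zero_iff.2 fun j _ => hL j)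
  have h1 := h s t' hcop (by rw [hfv]; exact hprod)
  rw [hfv, free_eq_norm hS hprod, free_mul hS hs (prod_ne_zero_iff.2 fun j _ => hL j),
    free_prod hS _ _ (fun j _ => hL j), gpol_deg M β hβ] at h1
  push_cast at h1
  have h2 : ((m : ℝ) + 1 - 2 - ε) = (m : ℝ) - 1 - ε := by ring
  rw [h2] at h1
  have h3 : max |(s : ℝ)| |(t : ℝ)| ≤ (1 + c0) * max |(s : ℝ)| |(t' : ℝ)| := by
    have e1 : |(s : ℝ)| ≤ max |(s : ℝ)| |(t' : ℝ)| := le_max_left _ _
    have e2 : |(t' : ℝ)| ≤ max |(s : ℝ)| |(t' : ℝ)| := le_max_right _ _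
    have e0 : 0 ≤ max |(s : ℝ)| |(t' : ℝ)| := (abs_nonneg _).trans e1
    apply max_le
    · nlinarith
    · have e3 : (t : ℝ) = t' - c0 * s := by rw [ht']; push_cast; ring
      rw [e3]
      calc |(t' : ℝ) - c0 * s| ≤ |(t' : ℝ)| + |(c0 : ℝ) * s| := abs_sub _ _
        _ = |(t' : ℝ)| + c0 * |(s : ℝ)| := by
            rw [abs_mul, abs_of_nonneg (by linarith : (0 : ℝ) ≤ (c0 : ℝ))]
        _ ≤ _ := by nlinarith
  have hmx : 0 ≤ max |(s : ℝ)| |(t : ℝ)| := (abs_nonneg _).trans (le_max_left _ _)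
  have hmx' : 0 ≤ max |(s : ℝ)| |(t' : ℝ)| := (abs_nonneg _).trans (le_max_left _ _)
  have h4 : (max |(s : ℝ)| |(t : ℝ)|) ^ ((m : ℝ) - 1 - ε) ≤
      (1 + c0) ^ ((m : ℝ) - 1 - ε) * (max |(s : ℝ)| |(t' : ℝ)|) ^ ((m : ℝ) - 1 - ε) := by
    rw [← Real.mul_rpow (by positivity) hmx']
    exact Real.rpow_le_rpow hmx h3 he0
  have hpos : (0 : ℝ) < (1 + c0) ^ ((m : ℝ) - 1 - ε) := by positivity
  calc c / (1 + c0) ^ ((m : ℝ) - 1 - ε) * (max |(s : ℝ)| |(t : ℝ)|) ^ ((m : ℝ) - 1 - ε)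
      ≤ c / (1 + c0) ^ ((m : ℝ) - 1 - ε) * ((1 + c0) ^ ((m : ℝ) - 1 - ε) *
        (max |(s : ℝ)| |(t' : ℝ)|) ^ ((m : ℝ) - 1 - ε)) := by gcongr
    _ = c * (max |(s : ℝ)| |(t' : ℝ)|) ^ ((m : ℝ) - 1 - ε) := by field_simp
    _ ≤ (free S s : ℝ) * ∏ j, (free S (M j * t + B j * s) : ℝ) := h1
    _ ≤ _ := by
      gcongr
      exact free_le_abs S s

lemma unif {α : Type} (F : Finset α) (P : α → ℝ → Prop)
    (hP : ∀ a ∈ F, ∀ c c' : ℝ, c' ≤ c → P a c → P a c') (h : ∀ a ∈ F, ∃ c : ℝ, 0 < c ∧ P a c) :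
    ∃ c : ℝ, 0 < c ∧ ∀ a ∈ F, P a c := by
  classical
  induction F using Finset.induction_on with
  | empty => exact ⟨1, one_pos, by simp⟩
  | insert a F _ ih =>
    obtain ⟨c1, hc1, h1⟩ := h a (mem_insert_self _ _)
    obtain ⟨c2, hc2, h2⟩ := ih (fun b hb => hP b (mem_insert_of_mem hb))
      (fun b hb => h b (mem_insert_of_mem hb))
    refine ⟨min c1 c2, lt_min hc1 hc2, fun b hb => ?_⟩
    rcases mem_insert.1 hb with rfl | hb'
    · exact hP _ hb _ _ (min_le_left _ _) h1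
    · exact hP _ hb _ _ (min_le_right _ _) (h2 b hb')

/-- **The `S`-free parts of the values of several forms with bounded coefficients.** -/
theorem cluster (hS : ∀ p ∈ S, p.Prime) {m : ℕ} (hm : 2 ≤ m) (H : ℤ) (ε : ℝ) (hε : 0 < ε)
    (hε1 : ε ≤ 1) :
    ∃ c : ℝ, 0 < c ∧ ∀ M B : Fin m → ℤ, (∀ j, 1 ≤ M j ∧ M j ≤ H) → (∀ j, |B j| ≤ H) →
      (∀ j k, j ≠ k → M j * B k ≠ M k * B j) →
      ∀ s t : ℤ, IsCoprime s t → s ≠ 0 → (∀ j, M j * t + B j * s ≠ 0) →
      c * (max |(s : ℝ)| |(t : ℝ)|) ^ ((m : ℝ) - 1 - ε) ≤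
        |(s : ℝ)| * ∏ j, (free S (M j * t + B j * s) : ℝ) := by
  classical
  set F : Finset ((Fin m → ℤ) × (Fin m → ℤ)) :=
    ((Fintype.piFinset fun _ : Fin m => Icc (1 : ℤ) H) ×ˢ
      (Fintype.piFinset fun _ : Fin m => Icc (-H) H)).filter
      fun a => ∀ j k, j ≠ k → a.1 j * a.2 k ≠ a.1 k * a.2 j with hF
  obtain ⟨c, hc, h⟩ := unif F (fun a c => ∀ s t : ℤ, IsCoprime s t → s ≠ 0 →
      (∀ j, a.1 j * t + a.2 j * s ≠ 0) →
      c * (max |(s : ℝ)| |(t : ℝ)|) ^ ((m : ℝ) - 1 - ε) ≤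
        |(s : ℝ)| * ∏ j, (free S (a.1 j * t + a.2 j * s) : ℝ)) (by
      intro a _ c c' hcc h s t h1 h2 h3
      refine le_trans ?_ (h s t h1 h2 h3)
      have : 0 ≤ (max |(s : ℝ)| |(t : ℝ)|) ^ ((m : ℝ) - 1 - ε) :=
        Real.rpow_nonneg ((abs_nonneg _).trans (le_max_left _ _)) _
      gcongr) (by
      intro a ha
      rw [hF, mem_filter, mem_product, Fintype.mem_piFinset, Fintype.mem_piFinset] at ha
      obtain ⟨⟨h1, -⟩, h3⟩ := ha
      exact cluster1 hS hm ε hε hε1 a.1 a.2 (fun j => (mem_Icc.1 (h1 j)).1) h3)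
  refine ⟨c, hc, fun M B hM hB hne => h (M, B) ?_⟩
  rw [hF, mem_filter, mem_product, Fintype.mem_piFinset, Fintype.mem_piFinset]
  refine ⟨⟨fun j => mem_Icc.2 (hM j), fun j => mem_Icc.2 ?_⟩, hne⟩
  exact abs_le.1 (hB j)

end Pool.Agent.U773.SF
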